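import Pool.Agent.H849.PW.Defs

/-!
# Integrality and independence of `ℓ` of the local factors: definitions
-/

set_option autoImplicit false

open Module

universe u v

namespace Pool.Agent.H849.LI

open Pool.Agent.H849.PW

open Classical in
/-- The characteristic polynomial of the restriction of `F` to the stable finite-dimensional subspace
`S`. -/
noncomputable def charpolyOn {Ω : Type u} [Field Ω] {V : Type v} [AddCommGroup V] [Module Ω V]
    (F : Module.End Ω V) (S : Submodule Ω V) : Polynomial Ω :=
  if h : (∀ x ∈ S, F x ∈ S) ∧ Module.Finite Ω S then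
    haveI := h.2
    (F.restrict h.1).charpoly
  else 0

/-- The polynomials `P l` have coefficients in `ℤ` and do not depend on `l`. -/
def IsIndependent {Λ : Type} {K : Λ → Type u} [∀ l, Field (K l)] (P : ∀ l, Polynomial (K l)) :
    Prop :=
  ∃ R : Polynomial ℤ, ∀ l, P l = R.map (Int.castRingHom (K l))

section raw

variable {Ω : Type u} [Field Ω] {V : Type v} [AddCommGroup V] [Module Ω V]

/-- `N F = c F N`. -/
def IsTwist (c : Ω) (F N : Module.End Ω V) : Prop := ∀ v, N (F v) = c • F (N v)

/-- `e` is an idempotent which commutes with `F` and with `N`. -/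
structure IsPart (F N e : Module.End Ω V) : Prop where
  idem : ∀ v, e (e v) = e v
  frob : ∀ v, e (F v) = F (e v)
  mon : ∀ v, e (N v) = N (e v)

/-- `(e, e')` maps the subspaces `S w` to themselves. -/
def Preserves {E : Type v} [AddCommGroup E] [Module Ω E] (S : ℤ → Submodule Ω (V × E))
    (e : Module.End Ω V) (e' : Module.End Ω E) : Prop :=
  ∀ (w : ℤ) v x, (v, x) ∈ S w → (e v, e' x) ∈ S w

/-- `e` is an idempotent of the `E_1` term which preserves the bigrading and commutes with `d_1` and
the Frobenius. -/
structure IsTermPart (T : WeightTerm.{u, v} Ω) (e : Module.End Ω T.E) : Prop where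
  idem : ∀ x, e (e x) = e x
  gr : ∀ r w x, x ∈ T.gr r w → e x ∈ T.gr r w
  d : ∀ x, e (T.d x) = T.d (e x)
  F : ∀ x, e (T.F x) = T.F (e x)

end raw

section

variable {Ω : Type u} [Field Ω] [CharZero Ω] {n q : ℕ}

/-- Operators on the `E_1` term and on the cohomology of the geometric generic fibre. -/
structure Operators (Z : LogModel.{u, v} Ω n q) where
  onE : Module.End Ω Z.E
  onV : ∀ i, Module.End Ω (Z.generic.V i)

/-- The operators are idempotents which are compatible with all the structures: for example the mean
value of a finite group `J` which acts on the scheme `Z`, where the Frobenius `F` normalizes `J`. If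
`Z` is a log smooth model over a Galois extension `K'` of `K` of the base change of a variety over
`K`, with an action of the Galois group, and if `J` is the inertia subgroup of the Galois group and `F`
a lift to the Weil group of `K` of the geometric Frobenius, then the vectors in the image which are
killed by `N` are the invariants of the inertia group of `K`. -/
structure Operators.IsProjector {Z : LogModel.{u, v} Ω n q} (e : Operators Z) : Prop where
  term : IsTermPart Z.toWeightTerm e.onE
  part : ∀ i, IsPart (Z.generic.frob i) (Z.generic.mon i) (e.onV i)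
  sp : ∀ i, Preserves (Z.generic.sp i) (e.onV i) e.onE

/-- The polynomial `P_(p, ℓ)(T) = det (1 - F T)` on the inertia invariants in `H^i`, that is, the
reciprocal polynomial of the characteristic polynomial of the geometric Frobenius `F` on the vectors of
the image of `e` which are killed by the monodromy operator `N`. -/
noncomputable def eulerFactor (Z : LogModel.{u, v} Ω n q) (e : Operators Z) (i : ℕ) :
    Polynomial Ω :=
  (charpolyOn (Z.generic.frob i)
    (LinearMap.range (e.onV i) ⊓ LinearMap.ker (Z.generic.mon i))).reverse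

/-- The characteristic polynomial of the geometric Frobenius on `e W_w H^i`, `W` the weight
filtration. -/
noncomputable def weightPoly (Z : LogModel.{u, v} Ω n q) (e : Operators Z) (i : ℕ) (w : ℤ) :
    Polynomial Ω :=
  charpolyOn (Z.generic.frob i) (LinearMap.range (e.onV i) ⊓ Z.generic.W i w)

/-- The characteristic polynomial of the geometric Frobenius on `e E_1^(r, w)`. -/
noncomputable def termPoly (Z : LogModel.{u, v} Ω n q) (e : Operators Z) (r w : ℤ) :
    Polynomial Ω :=
  charpolyOn Z.F (LinearMap.range e.onE ⊓ Z.gr r w)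

/-- `N F = q F N` on the cohomology of the geometric generic fibre. -/
def IsTwisted (Z : LogModel.{u, v} Ω n q) : Prop :=
  ∀ i, IsTwist (q : Ω) (Z.generic.frob i) (Z.generic.mon i)

/-- `E_1^(r, w)` is zero except for `0 ≤ w` and `0 ≤ r + w ≤ 2 n`. -/
def IsBounded (Z : LogModel.{u, v} Ω n q) : Prop :=
  ∀ r w : ℤ, w < 0 ∨ r + w < 0 ∨ 2 * n < r + w → Z.gr r w = ⊥

end

/-- The `ℓ`-adic cohomology of a log smooth projective scheme `Z` of relative dimension `n` for the
primes `ℓ`, with the known properties: `N F = q F N`; `E_1^(r, w)` is zero except for `0 ≤ w` and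
`0 ≤ r + w ≤ 2 n`; the characteristic polynomials of the Frobenius on the `e E_1^(r, w)` have integral
coefficients independent of `ℓ` (Deligne's theorem for the strata and their quotients). -/
structure IsSystem {Λ : Type} {K : Λ → Type u} [∀ l, Field (K l)] [∀ l, CharZero (K l)] {n q : ℕ}
    (Z : ∀ l, LogModel.{u, v} (K l) n q) (e : ∀ l, Operators (Z l)) : Prop where
  projector : ∀ l, (e l).IsProjector
  twist : ∀ l, IsTwisted (Z l)
  bounded : ∀ l, IsBounded (Z l)
  terms : ∀ r w, IsIndependent fun l => termPoly (Z l) (e l) r w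

/-- The characteristic polynomials of the Frobenius on `e W_w H^i` have integral coefficients
independent of `ℓ`, for all `i ≠ n`. For a Lefschetz map `Z → X` these groups are those of `X` (for
`i < n`) and their duals. -/
def IsKnownOutside {Λ : Type} {K : Λ → Type u} [∀ l, Field (K l)] [∀ l, CharZero (K l)] {n q : ℕ}
    (Z : ∀ l, LogModel.{u, v} (K l) n q) (e : ∀ l, Operators (Z l)) : Prop :=
  ∀ (i : ℕ) (w : ℤ), i ≠ n → IsIndependent fun l => weightPoly (Z l) (e l) i w

section

variable {Ω : Type u} [Field Ω] [CharZero Ω] {s : ℕ}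

/-- The numbers `t_i` are nonzero, and `∑ μ_i / t_i ≠ 0` for all the nonzero families `μ` of
eigenvalues of the `Δ_i` (and zeros). -/
def IsGeneric (A : Fin s → Factor.{u, v} Ω) (t : Fin s → Ω) : Prop :=
  (∀ i, t i ≠ 0) ∧ ∀ μ : Fin s → Ω, μ ≠ 0 → (∀ i, μ i = 0 ∨ (A i).IsEigenvalue (μ i)) →
    ∑ i, (t i)⁻¹ * μ i ≠ 0

/-- The `t_i` are positive rational numbers, and the nonzero eigenvalues of the `Δ_i` are totally of
one sign `e`, or the `X_i` are curves and surfaces. -/
def IsPositive (A : Fin s → Factor.{u, v} Ω) (t : Fin s → Ω) : Prop :=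
  ∃ (e : Ω) (a : Fin s → ℚ), (∀ i, 0 < a i ∧ t i = a i) ∧
    ∀ i, (A i).IsDefinite e ∨ (A i).IsSurface e

/-- There is a Lefschetz map `Z → X_1 × ⋯ × X_s × G` of class `∑ L ^ i ⊗ β_i`, where
`L = t_1 L_1 + ⋯ + t_s L_s`, the `X_i` are projective log smooth schemes (of any kind of reduction),
`G` is projective of good reduction with cohomology `U`, and the `t_i` are generic, or positive
rational numbers if the `X_i` are curves and surfaces. -/
def IsSectionOfProduct (n : ℕ) (T : WeightTerm.{u, v} Ω) : Prop :=
  ∃ (s : ℕ) (A : Fin s → Factor.{u, v} Ω) (t : Fin s → Ω) (U : Type v) (_ : AddCommGroup U)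
    (_ : Module Ω U) (_ : Module.Finite Ω U) (M : ℕ → Module.End Ω U) (r : ℕ),
    (IsGeneric A t ∨ IsPositive A t) ∧ HasLefschetzMap n (tens U s A t) M r T

end

end Pool.Agent.H849.LI
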