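import Pool.Agent.H849.LI.Main
import Pool.Agent.H849.PW.Pos

/-!
# The local factors of the sections of products
-/

set_option autoImplicit false

open Module

universe u v

namespace Pool.Agent.H849.LI

open Pool.Agent.H849.PW

/-- The sections of products are mw pure. -/
theorem pure_of_section {Ω : Type u} [Field Ω] [CharZero Ω] [IsAlgClosed Ω] {n q : ℕ}
    (Z : LogModel.{u, v} Ω n q) (h : IsSectionOfProduct n Z.toWeightTerm) (i : ℕ) : Z.PureIn i := by
  obtain ⟨s, A, t, U, h1, h2, h3, M, r, h4, h5⟩ := h
  have h6 : PureOver A t := by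
    rcases h4 with ⟨ht, hμ⟩ | ⟨e, a, ha, hA⟩
    · obtain ⟨H, hH, hp⟩ := exists_conditions A
      exact hp t ht fun μ h => hμ μ ((hH μ).1 h).1 ((hH μ).1 h).2
    · have h7 : t = fun i => (a i : Ω) := funext fun i => (ha i).2
      rw [h7]
      exact pureOver_of_definite A e hA a fun i => (ha i).1
  exact h6 U n q r Z M h5 i

end Pool.Agent.H849.LI
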