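import Pool.Agent.H849.LI.Defs

/-!
# Characteristic polynomials and correspondences
-/

set_option autoImplicit false

open Module Polynomial

universe u v

namespace Pool.Agent.H849.LI

section

variable {Ω : Type u} [Field Ω] {V : Type v} [AddCommGroup V] [Module Ω V]

theorem charpoly_eq_mul {K : Type*} [AddCommGroup K] [Module Ω K] [FiniteDimensional Ω K]
    [Infinite Ω] {W : Submodule Ω K} {e : K →ₗ[Ω] K} (he : W ≤ W.comap e) :
    e.charpoly = (e.restrict he).charpoly * (W.mapQ W e he).charpoly := by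
  apply Polynomial.funext
  intro t
  rw [eval_mul, LinearMap.eval_charpoly, LinearMap.eval_charpoly, LinearMap.eval_charpoly]
  have h1 : W ≤ W.comap (algebraMap Ω (End Ω K) t - e) := by
    intro x hx
    rw [Submodule.mem_comap, LinearMap.sub_apply, Module.algebraMap_end_apply]
    exact W.sub_mem (W.smul_mem _ hx) (he hx)
  rw [LinearMap.det_eq_det_mul_det W _ h1]
  congr 2
  apply LinearMap.ext
  intro x
  obtain ⟨x, rfl⟩ := W.mkQ_surjective x
  simp

theorem charpolyOn_eq {F : Module.End Ω V} {S : Submodule Ω V} (h : ∀ x ∈ S, F x ∈ S)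
    [Module.Finite Ω S] : charpolyOn F S = (F.restrict h).charpoly := by
  unfold charpolyOn
  rw [dif_pos ⟨h, inferInstance⟩]

theorem charpolyOn_monic {F : Module.End Ω V} {S : Submodule Ω V} (hS : ∀ x ∈ S, F x ∈ S)
    [Module.Finite Ω S] : (charpolyOn F S).Monic := by
  rw [charpolyOn_eq hS]
  exact LinearMap.charpoly_monic _

theorem charpolyOn_bot (F : Module.End Ω V) : charpolyOn F ⊥ = 1 := by
  rw [charpolyOn_eq (fun x hx => by
    rw [Submodule.mem_bot] at hx
    rw [hx, map_zero]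
    exact Submodule.zero_mem _)]
  apply Polynomial.eq_one_of_monic_natDegree_zero (LinearMap.charpoly_monic _)
  rw [LinearMap.charpoly_natDegree, finrank_bot]

/-- Invariance under isomorphisms. -/
theorem charpoly_equiv {K K' : Type*} [AddCommGroup K] [Module Ω K] [FiniteDimensional Ω K]
    [AddCommGroup K'] [Module Ω K'] [FiniteDimensional Ω K'] {f : Module.End Ω K}
    {f' : Module.End Ω K'} (e : K ≃ₗ[Ω] K') (h : ∀ x, e (f x) = f' (e x)) :
    f.charpoly = f'.charpoly := by
  rw [← LinearEquiv.charpoly_conj e]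
  congr 1
  apply LinearMap.ext
  intro y
  rw [LinearEquiv.conj_apply_apply, h, LinearEquiv.apply_symm_apply]

/-- A surjection of modules with operators multiplies characteristic polynomials. -/
theorem charpoly_of_surjective [Infinite Ω] {K K' : Type*} [AddCommGroup K] [Module Ω K]
    [FiniteDimensional Ω K] [AddCommGroup K'] [Module Ω K'] [FiniteDimensional Ω K']
    {f : Module.End Ω K} {f' : Module.End Ω K'} (π : K →ₗ[Ω] K') (hπ : Function.Surjective π)
    (hc : ∀ x, π (f x) = f' (π x)) :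
    f.charpoly = charpolyOn f (LinearMap.ker π) * f'.charpoly := by
  have he : LinearMap.ker π ≤ (LinearMap.ker π).comap f := by
    intro x hx
    rw [Submodule.mem_comap, LinearMap.mem_ker, hc, LinearMap.mem_ker.1 hx, map_zero]
  rw [charpoly_eq_mul he, charpolyOn_eq (S := LinearMap.ker π) (fun x hx => he hx)]
  congr 1
  apply charpoly_equiv (π.quotKerEquivOfSurjective hπ)
  intro y
  obtain ⟨x, rfl⟩ := (LinearMap.ker π).mkQ_surjective y
  exact hc x

variable {V' : Type v} [AddCommGroup V'] [Module Ω V']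

/-- If the correspondence `T` identifies `S / S'` with `R`, the characteristic polynomials multiply. -/
theorem charpolyOn_graph [Infinite Ω] {T : Submodule Ω (V × V')} {S S' : Submodule Ω V}
    {R : Submodule Ω V'} {F : Module.End Ω V} {F' : Module.End Ω V'} [Module.Finite Ω S]
    [Module.Finite Ω R] (hS : ∀ x ∈ S, F x ∈ S) (hR : ∀ x ∈ R, F' x ∈ R) (hle : S' ≤ S)
    (hl : ∀ v ∈ S, ∃ x ∈ R, (v, x) ∈ T) (hr : ∀ x ∈ R, ∃ v ∈ S, (v, x) ∈ T)
    (hk : ∀ v ∈ S, ∀ x ∈ R, (v, x) ∈ T → (v ∈ S' ↔ x = 0))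
    (hc : ∀ v x, (v, x) ∈ T → (F v, F' x) ∈ T) :
    charpolyOn F S = charpolyOn F S' * charpolyOn F' R := by
  have huniq : ∀ v x y, x ∈ R → y ∈ R → (v, x) ∈ T → (v, y) ∈ T → x = y := by
    intro v x y hx hy h1 h2
    have h3 : ((0 : V), x - y) ∈ T := by
      have := T.sub_mem h1 h2
      rwa [Prod.mk_sub_mk, sub_self] at this
    have h4 := (hk 0 S.zero_mem _ (R.sub_mem hx hy) h3).1 S'.zero_mem
    exact sub_eq_zero.1 h4
  choose! κ hκR hκT using hl
  let π : S →ₗ[Ω] R :=
    { toFun := fun v => ⟨κ v, hκR v v.2⟩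
      map_add' := fun v w => by
        apply Subtype.ext
        exact huniq (v + w : V) _ _ (hκR _ (S.add_mem v.2 w.2))
          (R.add_mem (hκR v v.2) (hκR w w.2)) (hκT _ (S.add_mem v.2 w.2))
          (T.add_mem (hκT v v.2) (hκT w w.2))
      map_smul' := fun c v => by
        apply Subtype.ext
        exact huniq (c • v : V) _ _ (hκR _ (S.smul_mem c v.2)) (R.smul_mem c (hκR v v.2))
          (hκT _ (S.smul_mem c v.2)) (T.smul_mem c (hκT v v.2)) }
  have hπ : Function.Surjective π := by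
    rintro ⟨x, hx⟩
    obtain ⟨v, hv, hvx⟩ := hr x hx
    refine ⟨⟨v, hv⟩, Subtype.ext ?_⟩
    exact huniq v _ _ (hκR v hv) hx (hκT v hv) hvx
  have hF : ∀ v, π ((F.restrict hS) v) = (F'.restrict hR) (π v) := by
    intro v
    apply Subtype.ext
    exact huniq (F v) _ _ (hκR _ (hS v v.2)) (hR _ (hκR v v.2)) (hκT _ (hS v v.2))
      (hc _ _ (hκT v v.2))
  have hker : ∀ v : S, v ∈ LinearMap.ker π ↔ (v : V) ∈ S' := by
    intro v
    rw [LinearMap.mem_ker, hk v v.2 _ (hκR v v.2) (hκT v v.2)]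
    exact ⟨fun h => congrArg Subtype.val h, fun h => Subtype.ext h⟩
  have hS' : ∀ x ∈ S', F x ∈ S' := by
    intro x hx
    have h1 := (hker ⟨x, hle hx⟩).2 hx
    have h2 : (F.restrict hS) ⟨x, hle hx⟩ ∈ LinearMap.ker π := by
      rw [LinearMap.mem_ker, hF, LinearMap.mem_ker.1 h1, map_zero]
    exact (hker _).1 h2
  have : Module.Finite Ω S' :=
    Module.Finite.of_injective (Submodule.inclusion hle) (Submodule.inclusion_injective hle)
  rw [charpolyOn_eq hS, charpolyOn_eq hR, charpoly_of_surjective π hπ hF, charpolyOn_eq hS',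
    charpolyOn_eq (fun x hx => by rw [LinearMap.mem_ker, hF, LinearMap.mem_ker.1 hx, map_zero])]
  congr 1
  let e : LinearMap.ker π ≃ₗ[Ω] S' :=
    { toFun := fun v => ⟨v.1, (hker _).1 v.2⟩
      map_add' := fun _ _ => rfl
      map_smul' := fun _ _ => rfl
      invFun := fun v => ⟨⟨v, hle v.2⟩, (hker _).2 v.2⟩
      left_inv := fun _ => rfl
      right_inv := fun _ => rfl }
  exact charpoly_equiv e fun _ => rfl

/-- If the correspondence `T` identifies `S / S'` with `R / R'`. -/
theorem charpolyOn_graph₂ [Infinite Ω] {T : Submodule Ω (V × V')} {S S' : Submodule Ω V}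
    {R R' : Submodule Ω V'} {F : Module.End Ω V} {F' : Module.End Ω V'} [Module.Finite Ω S]
    [Module.Finite Ω R] (hS : ∀ x ∈ S, F x ∈ S) (hR : ∀ x ∈ R, F' x ∈ R)
    (hR' : ∀ x ∈ R', F' x ∈ R') (hle : S' ≤ S) (hle' : R' ≤ R)
    (hl : ∀ v ∈ S, ∃ x ∈ R, (v, x) ∈ T) (hr : ∀ x ∈ R, ∃ v ∈ S, (v, x) ∈ T)
    (hk : ∀ v ∈ S, ∀ x ∈ R, (v, x) ∈ T → (v ∈ S' ↔ x ∈ R'))
    (hc : ∀ v x, (v, x) ∈ T → (F v, F' x) ∈ T) :
    charpolyOn F S * charpolyOn F' R' = charpolyOn F S' * charpolyOn F' R := by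
  let Q := V' ⧸ R'
  let π : V' →ₗ[Ω] Q := R'.mkQ
  have hπ0 : ∀ x, π x = 0 ↔ x ∈ R' := fun x => by
    rw [Submodule.mkQ_apply, Submodule.Quotient.mk_eq_zero]
  let F'' : Module.End Ω Q := R'.mapQ R' F' hR'
  have hF'' : ∀ x, F'' (π x) = π (F' x) := fun x => rfl
  have hR'' : ∀ x ∈ R.map π, F'' x ∈ R.map π := by
    rintro _ ⟨x, hx, rfl⟩
    exact ⟨F' x, hR x hx, rfl⟩
  -- the graph of the projection, restricted to `R`
  have h1 : charpolyOn F' R = charpolyOn F' R' * charpolyOn F'' (R.map π) := by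
    refine charpolyOn_graph (T := LinearMap.graph π) hR hR'' hle' ?_ ?_ ?_ ?_
    · intro x hx
      exact ⟨π x, ⟨x, hx, rfl⟩, rfl⟩
    · rintro _ ⟨x, hx, rfl⟩
      exact ⟨x, hx, rfl⟩
    · rintro x hx y - hxy
      have h : y = π x := hxy
      rw [h, hπ0]
    · intro x y hxy
      have h : y = π x := hxy
      show F'' y = π (F' x)
      rw [h, hF'']
  -- the image of `T`
  have h2 : charpolyOn F S = charpolyOn F S' * charpolyOn F'' (R.map π) := by
    refine charpolyOn_graph (T := (T ⊓ (Submodule.comap (LinearMap.snd Ω V V') R)).map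
      (LinearMap.prodMap LinearMap.id π)) hS hR'' hle ?_ ?_ ?_ ?_
    · intro v hv
      obtain ⟨x, hx, hvx⟩ := hl v hv
      exact ⟨π x, ⟨x, hx, rfl⟩, ⟨(v, x), ⟨hvx, hx⟩, rfl⟩⟩
    · rintro _ ⟨x, hx, rfl⟩
      obtain ⟨v, hv, hvx⟩ := hr x hx
      exact ⟨v, hv, ⟨(v, x), ⟨hvx, hx⟩, rfl⟩⟩
    · rintro v hv y - ⟨⟨v', x⟩, ⟨hvx, hx⟩, hxy⟩
      have e1 : v' = v := congrArg Prod.fst hxy
      have e2 : π x = y := congrArg Prod.snd hxy
      subst e1
      rw [← e2, hπ0]
      exact hk v' hv x hx hvx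
    · rintro v y ⟨⟨v', x⟩, ⟨hvx, hx⟩, hxy⟩
      have e1 : v' = v := congrArg Prod.fst hxy
      have e2 : π x = y := congrArg Prod.snd hxy
      subst e1
      rw [← e2, hF'']
      exact ⟨(F v', F' x), ⟨hc _ _ hvx, hR x hx⟩, rfl⟩
  rw [h1, h2]
  ring

/-- The scaling of the operator. -/
theorem charpolyOn_smul [Infinite Ω] {F : Module.End Ω V} {S : Submodule Ω V}
    (hS : ∀ x ∈ S, F x ∈ S) [Module.Finite Ω S] {c : Ω} (hc : c ≠ 0) :
    charpolyOn (c • F) S = (charpolyOn F S).scaleRoots c := by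
  have hS' : ∀ x ∈ S, (c • F) x ∈ S := fun x hx => S.smul_mem c (hS x hx)
  rw [charpolyOn_eq hS, charpolyOn_eq hS']
  have h0 : (c • F).restrict hS' = c • F.restrict hS := rfl
  rw [h0]
  apply Polynomial.funext
  intro t
  have ht : t = c * (c⁻¹ * t) := by rw [mul_inv_cancel_left₀ hc]
  conv_rhs => rw [ht]
  rw [scaleRoots_eval_mul, LinearMap.eval_charpoly, LinearMap.eval_charpoly,
    LinearMap.charpoly_natDegree, ← LinearMap.det_smul]
  congr 1
  apply LinearMap.ext
  intro x
  simp only [LinearMap.sub_apply, LinearMap.smul_apply, Module.algebraMap_end_apply, smul_sub,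
    smul_smul, mul_inv_cancel_left₀ hc]

end

section Independent

variable {Λ : Type} {K : Λ → Type u} [∀ l, Field (K l)]

theorem IsIndependent.one : IsIndependent (fun l => (1 : Polynomial (K l))) :=
  ⟨1, fun l => by rw [Polynomial.map_one]⟩

theorem IsIndependent.mul {P P' : ∀ l, Polynomial (K l)} (h : IsIndependent P)
    (h' : IsIndependent P') : IsIndependent (fun l => P l * P' l) := by
  obtain ⟨R, hR⟩ := h
  obtain ⟨R', hR'⟩ := h'
  exact ⟨R * R', fun l => by rw [Polynomial.map_mul, ← hR, ← hR']⟩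

theorem IsIndependent.congr {P P' : ∀ l, Polynomial (K l)} (h : IsIndependent P)
    (e : ∀ l, P' l = P l) : IsIndependent P' := by
  rw [show P' = P from funext e]
  exact h

variable [∀ l, CharZero (K l)]

theorem monic_of_map {l : Λ} {R : Polynomial ℤ} (h : (R.map (Int.castRingHom (K l))).Monic) :
    R.Monic :=
  Polynomial.monic_of_injective (Int.castRingHom (K l)).injective_int h

theorem IsIndependent.of_mul {P P' : ∀ l, Polynomial (K l)} (h' : IsIndependent P')
    (hm : ∀ l, (P' l).Monic) (h : IsIndependent (fun l => P l * P' l)) : IsIndependent P := by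
  obtain ⟨R, hR⟩ := h
  obtain ⟨R', hR'⟩ := h'
  by_cases hΛ : Nonempty Λ
  · obtain ⟨l₀⟩ := hΛ
    have hmon : R'.Monic := by
      have := hm l₀
      rw [hR'] at this
      exact monic_of_map this
    refine ⟨R /ₘ R', fun l => ?_⟩
    rw [Polynomial.map_divByMonic _ hmon, ← hR l, ← hR' l]
    show P l = (P l * P' l) /ₘ P' l
    rw [mul_comm, Polynomial.mul_divByMonic_cancel_left _ (hm l)]
  · exact ⟨0, fun l => absurd ⟨l⟩ hΛ⟩

theorem IsIndependent.scaleRoots {P : ∀ l, Polynomial (K l)} (hm : ∀ l, (P l).Monic)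
    (h : IsIndependent P) (q : ℕ) : IsIndependent (fun l => (P l).scaleRoots (q : K l)) := by
  obtain ⟨R, hR⟩ := h
  refine ⟨R.scaleRoots (q : ℤ), fun l => ?_⟩
  have h1 : (Int.castRingHom (K l)) R.leadingCoeff ≠ 0 := by
    have := hm l
    rw [hR] at this
    rw [(monic_of_map this).leadingCoeff, map_one]
    exact one_ne_zero
  rw [Polynomial.map_scaleRoots _ _ _ h1, ← hR]
  simp

theorem IsIndependent.reverse {P : ∀ l, Polynomial (K l)} (h : IsIndependent P) :
    IsIndependent (fun l => (P l).reverse) := by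
  obtain ⟨R, hR⟩ := h
  refine ⟨R.reverse, fun l => ?_⟩
  have hinj : Function.Injective (Int.castRingHom (K l)) := (Int.castRingHom (K l)).injective_int
  show (P l).reverse = _
  rw [hR]
  unfold Polynomial.reverse
  rw [Polynomial.reflect_map, Polynomial.natDegree_map_eq_of_injective hinj]

end Independent

end Pool.Agent.H849.LI
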