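import Pool.Agent.H849.LI.Lin
import Pool.Agent.H849.PW.Model

/-!
# Purity gives the integrality and the independence of `ℓ`
-/

set_option autoImplicit false
set_option linter.unusedSectionVars false

open Module Polynomial

universe u v

namespace Pool.Agent.H849.LI

open Pool.Agent.Y143 Pool.Agent.H849.SF Pool.Agent.H849.PW

section one

variable {Ω : Type u} [Field Ω] [CharZero Ω] {n q : ℕ} (Z : LogModel.{u, v} Ω n q)

/-- The part of `S` in the image of `e`. -/
def prt {V : Type v} [AddCommGroup V] [Module Ω V] (e : Module.End Ω V) (S : Submodule Ω V) :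
    Submodule Ω V := LinearMap.range e ⊓ S

lemma mem_prt {V : Type v} [AddCommGroup V] [Module Ω V] {e : Module.End Ω V}
    (he : ∀ x, e (e x) = e x) {S : Submodule Ω V} {x : V} : x ∈ prt e S ↔ e x = x ∧ x ∈ S := by
  constructor
  · rintro ⟨⟨y, rfl⟩, hx⟩
    exact ⟨he y, hx⟩
  · rintro ⟨h, hx⟩
    exact ⟨⟨x, h⟩, hx⟩

lemma prt_bot {V : Type v} [AddCommGroup V] [Module Ω V] (e : Module.End Ω V) :
    prt e ⊥ = ⊥ := inf_bot_eq _

lemma prt_stable {V : Type v} [AddCommGroup V] [Module Ω V] {e F : Module.End Ω V}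
    (he : ∀ x, e (F x) = F (e x)) {S : Submodule Ω V} (hS : ∀ x ∈ S, F x ∈ S) :
    ∀ x ∈ prt e S, F x ∈ prt e S := by
  rintro _ ⟨⟨y, rfl⟩, hx⟩
  exact ⟨⟨F y, he y⟩, hS _ hx⟩

lemma zc_F {r w : ℤ} (x : Z.E) (hx : x ∈ Z.cocycles r w) : Z.F x ∈ Z.cocycles r w := by
  refine ⟨Z.isTerm.F_gr _ _ _ hx.1, ?_⟩
  rw [SetLike.mem_coe, LinearMap.mem_ker, ← Z.isTerm.F_d, LinearMap.mem_ker.1 hx.2, map_zero]

variable {Z} {e : Operators Z} (he : e.IsProjector)
include he

lemma monic_zc (r w : ℤ) : (charpolyOn Z.F (prt e.onE (Z.cocycles r w))).Monic := by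
  have := Z.isTerm.finite
  exact charpolyOn_monic (prt_stable he.term.F (zc_F Z))

lemma monic_bd (r w : ℤ) : (charpolyOn Z.F (prt e.onE (Z.coboundaries r w))).Monic := by
  have := Z.isTerm.finite
  exact charpolyOn_monic (prt_stable he.term.F fun x hx => WeightTerm.F_bd Z.isTerm hx)

lemma monic_W (i : ℕ) (w : ℤ) : (weightPoly Z e i w).Monic := by
  have := Z.finite i
  exact charpolyOn_monic (prt_stable ((he.part i).frob) fun x hx => Z.frob_W i hx)

/-- The exact sequence of `d_1`. -/
theorem term_split (r w : ℤ) : termPoly Z e r w =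
    charpolyOn Z.F (prt e.onE (Z.cocycles r w)) *
      charpolyOn Z.F (prt e.onE (Z.coboundaries (r + 1) w)) := by
  have := Z.isTerm.finite
  refine charpolyOn_graph (T := LinearMap.graph Z.d)
    (prt_stable he.term.F fun x hx => Z.isTerm.F_gr _ _ _ hx)
    (prt_stable he.term.F fun x hx => WeightTerm.F_bd Z.isTerm hx) (inf_le_inf_left _ inf_le_left)
    ?_ ?_ ?_ ?_
  · rintro x hx
    obtain ⟨h1, h2⟩ := (mem_prt he.term.idem).1 hx
    exact ⟨Z.d x, (mem_prt he.term.idem).2 ⟨by rw [he.term.d, h1], x, WeightTerm.gr_cast (by ring) rfl h2,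
      rfl⟩, rfl⟩
  · rintro y hy
    obtain ⟨h1, x, hx, rfl⟩ := (mem_prt he.term.idem).1 hy
    refine ⟨e.onE x, (mem_prt he.term.idem).2 ⟨he.term.idem x,
      he.term.gr _ _ _ (WeightTerm.gr_cast (by ring) rfl hx)⟩, ?_⟩
    show Z.d x = Z.d (e.onE x)
    rw [← he.term.d, h1]
  · intro x hx y _ hxy
    have h : y = Z.d x := hxy
    rw [h]
    exact ⟨fun h => h.2.2, fun h => ⟨hx.1, hx.2, h⟩⟩
  · intro x y hxy
    have h : y = Z.d x := hxy
    show Z.F y = Z.d (Z.F x)
    rw [h, Z.isTerm.F_d]

omit he in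
lemma zc_one (e : Operators Z) {r w : ℤ} (h : Z.gr r w = ⊥) :
    charpolyOn Z.F (prt e.onE (Z.cocycles r w)) = 1 := by
  have h1 : Z.cocycles r w = ⊥ := by
    unfold WeightTerm.cocycles
    rw [h, bot_inf_eq]
  rw [h1, prt_bot, charpolyOn_bot]

omit he in
lemma bd_one (e : Operators Z) {r w : ℤ} (h : Z.gr (r - 1) w = ⊥) :
    charpolyOn Z.F (prt e.onE (Z.coboundaries r w)) = 1 := by
  have h1 : Z.coboundaries r w = ⊥ := by
    unfold WeightTerm.coboundaries
    rw [h, Submodule.map_bot]
  rw [h1, prt_bot, charpolyOn_bot]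

/-- The graded pieces of the weight filtration. -/
theorem weight_split (i : ℕ) (w : ℤ) :
    weightPoly Z e i w * charpolyOn Z.F (prt e.onE (Z.coboundaries (i - w) w)) =
      weightPoly Z e i (w - 1) * charpolyOn Z.F (prt e.onE (Z.cocycles (i - w) w)) := by
  have := Z.finite i
  have := Z.isTerm.finite
  have G := Z.graded i
  refine charpolyOn_graph₂ (T := Z.generic.sp i w)
    (prt_stable ((he.part i).frob) fun x hx => Z.frob_W i hx)
    (prt_stable he.term.F (zc_F Z)) (prt_stable he.term.F fun x hx => WeightTerm.F_bd Z.isTerm hx)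
    (inf_le_inf_left _ (G.W_mono (by omega)))
    (inf_le_inf_left _ (WeightTerm.bd_le_zc Z.isTerm _ _)) ?_ ?_ ?_ ?_
  · intro v hv
    obtain ⟨h1, h2⟩ := (mem_prt (he.part i).idem).1 hv
    obtain ⟨x, hx⟩ := G.sp_left _ v h2
    have h3 := he.sp _ _ _ _ hx
    rw [h1] at h3
    exact ⟨e.onE x, (mem_prt he.term.idem).2 ⟨he.term.idem x, (G.sp_mem _ _ _ h3).2⟩, h3⟩
  · intro x hx
    obtain ⟨h1, h2⟩ := (mem_prt he.term.idem).1 hx
    obtain ⟨v, hv⟩ := G.sp_right _ x h2
    have h3 := he.sp _ _ _ _ hv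
    rw [h1] at h3
    exact ⟨e.onV i v, (mem_prt (he.part i).idem).2 ⟨(he.part i).idem v, (G.sp_mem _ _ _ h3).1⟩, h3⟩
  · intro v hv x hx hvx
    have h1 := G.sp_ker _ _ _ hvx
    exact ⟨fun h => ⟨hx.1, h1.1 h.2⟩, fun h => ⟨hv.1, h1.2 h.2⟩⟩
  · intro v x hvx
    exact (Z.respects i).frob _ _ _ hvx

omit he
variable (Z)

/-- There are no negative weights. -/
theorem W_neg (hb : IsBounded Z) (i : ℕ) {w : ℤ} (hw : w < 0) :
    Z.generic.W i w = ⊥ := by
  have G := Z.graded i
  obtain ⟨b, hb'⟩ := G.W_bot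
  have key : ∀ (k : ℕ) (w : ℤ), w < 0 → w - b ≤ k → Z.generic.W i w = ⊥ := by
    intro k
    induction k with
    | zero =>
      intro w _ h
      rw [eq_bot_iff, ← hb']
      exact G.W_mono (by omega)
    | succ k ih =>
      intro w hw h
      rw [eq_bot_iff, ← ih (w - 1) (by omega) (by omega)]
      intro v hv
      obtain ⟨x, hx⟩ := G.sp_left _ v hv
      have h1 := (G.sp_mem _ _ _ hx).2
      have h2 : x = 0 := by
        have h3 := h1.1
        rw [SetLike.mem_coe, hb _ _ (Or.inl hw), Submodule.mem_bot] at h3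
        exact h3
      exact (G.sp_ker _ _ _ hx).2 (by rw [h2]; exact Submodule.zero_mem _)
  exact key (w - b).toNat w hw (Int.self_le_toNat _)

/-- If `H^i` is mw pure, the weight filtration is the monodromy filtration. -/
theorem isMonodromyFiltration_W [IsAlgClosed Ω] (hq : 1 < q) {m : ℕ} (hp : Z.PureIn m) :
    IsMonodromyFiltration (Z.generic.mon m) fun a => Z.generic.W m (m + a) := by
  obtain ⟨M, hM, hMs, hMw⟩ := hp
  have G := Z.graded m
  have := Z.finite m
  have h1 : Helper812_WR.IsWeightFiltration q m (Z.generic.frob m) M :=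
    ⟨hM.mono, hM.bot, hM.top, hMs, hMw⟩
  have h0 : Helper812_WR.IsWeightFiltration q m (Z.generic.frob m)
      (fun a => Z.generic.W m ((m : ℤ) + a)) := by
    refine ⟨fun a b hab => G.W_mono (by omega), ?_, ?_, fun a v hv => Z.frob_W m hv,
      fun a α v hv hv' hα => Z.weil_W m hv hv' hα⟩
    · obtain ⟨w, hw⟩ := G.W_bot
      refine ⟨w - m, ?_⟩
      show Z.generic.W m ((m : ℤ) + (w - m)) = ⊥
      rw [show (m : ℤ) + (w - m) = w by ring, hw]
    · obtain ⟨w, hw⟩ := G.W_top
      refine ⟨w - m, ?_⟩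
      show Z.generic.W m ((m : ℤ) + (w - m)) = ⊤
      rw [show (m : ℤ) + (w - m) = w by ring, hw]
  have h2 : M = fun a => Z.generic.W m (m + a) := funext fun a => h1.eq hq h0 a
  rw [← h2]
  exact hM

section mon

variable {V : Type v} [AddCommGroup V] [Module Ω V] {N : Module.End Ω V} {M : ℤ → Submodule Ω V}
  (hM : IsMonodromyFiltration N M)
include hM

lemma pow_map (k : ℕ) {a : ℤ} {x : V} (hx : x ∈ M a) : (N ^ k) x ∈ M (a - 2 * k) := by
  induction k with
  | zero => simpa using hx
  | succ k ih =>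
    rw [pow_succ', Module.End.mul_apply]
    have := hM.map _ _ ih
    rwa [show a - 2 * (k : ℤ) - 2 = a - 2 * ((k + 1 : ℕ) : ℤ) by push_cast; ring] at this

/-- The kernel of `N` has nonpositive index. -/
lemma ker_le {x : V} (hx : N x = 0) : x ∈ M 0 := by
  obtain ⟨t, ht⟩ := hM.top
  have key : ∀ k : ℕ, x ∈ M k → x ∈ M 0 := by
    intro k
    induction k with
    | zero => exact fun h => h
    | succ k ih =>
      intro h
      apply ih
      have h1 := hM.inj (k + 1) x h (by
        rw [pow_succ, Module.End.mul_apply, hx, map_zero]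
        exact Submodule.zero_mem _)
      rwa [show (((k + 1 : ℕ) : ℤ)) - 1 = k by push_cast; ring] at h1
  apply key t.toNat
  have h1 : x ∈ M t := by rw [ht]; trivial
  exact hM.mono (Int.self_le_toNat t) h1

/-- `N` maps `M 0` onto `M (-2)`. -/
lemma surj_map {y : V} (hy : y ∈ M (-2)) : ∃ x ∈ M 0, N x = y := by
  obtain ⟨b, hb⟩ := hM.bot
  have key : ∀ (j k : ℕ), 1 ≤ k → -(k : ℤ) - b ≤ j → ∀ y, y ∈ M (-k) →
      ∃ x ∈ M (2 - k), N x = y := by
    intro j
    induction j with
    | zero =>
      intro k _ h y hy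
      have h1 := hM.mono (show -(k : ℤ) ≤ b by omega) hy
      rw [hb, Submodule.mem_bot] at h1
      exact ⟨0, Submodule.zero_mem _, by rw [map_zero, h1]⟩
    | succ j ih =>
      intro k hk h y hy
      obtain ⟨w, hw, hyw⟩ := hM.surj k y hy
      obtain ⟨u, hu, huN⟩ := ih (k + 1) (by omega) (by push_cast; omega) (y - (N ^ k) w) (by
        rwa [show -(((k + 1 : ℕ) : ℤ)) = -(k : ℤ) - 1 by push_cast; ring])
      obtain ⟨k', rfl⟩ : ∃ k', k = k' + 1 := ⟨k - 1, by omega⟩
      refine ⟨u + (N ^ k') w, Submodule.add_mem _ (hM.mono (by push_cast; omega) hu) ?_, ?_⟩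
      · have := pow_map hM k' hw
        rwa [show (((k' + 1 : ℕ) : ℤ)) - 2 * k' = 2 - ((k' + 1 : ℕ) : ℤ) by push_cast; ring]
          at this
      · rw [map_add, huN, ← Module.End.mul_apply, ← pow_succ', sub_add_cancel]
  have := key ((-2 - b).toNat) 2 (by norm_num) (by
    have := Int.self_le_toNat (-2 - b)
    push_cast
    omega) y hy
  simpa using this

end mon

/-- The inertia invariants, for mw pure `H^i`. -/
theorem ker_split [IsAlgClosed Ω] (hq : 1 < q) {e : Operators Z} (he : e.IsProjector)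
    (ht : IsTwisted Z) {i : ℕ} (hp : Z.PureIn i) :
    weightPoly Z e i i = charpolyOn (Z.generic.frob i)
      (LinearMap.range (e.onV i) ⊓ LinearMap.ker (Z.generic.mon i)) *
      (weightPoly Z e i (i - 2)).scaleRoots (q : Ω) := by
  have := Z.finite i
  have hM := isMonodromyFiltration_W Z hq hp
  have hq0 : (q : Ω) ≠ 0 := by
    have : q ≠ 0 := by omega
    exact_mod_cast this
  have hst := fun w => prt_stable ((he.part i).frob) (S := Z.generic.W i w) fun x hx => Z.frob_W i hx
  have h1 : (weightPoly Z e i (i - 2)).scaleRoots (q : Ω) =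
      charpolyOn ((q : Ω) • Z.generic.frob i) (prt (e.onV i) (Z.generic.W i (i - 2))) :=
    (charpolyOn_smul (hst _) hq0).symm
  rw [h1]
  refine charpolyOn_graph (T := LinearMap.graph (Z.generic.mon i)) (hst i)
    (fun x hx => Submodule.smul_mem _ _ (hst _ x hx)) ?_ ?_ ?_ ?_ ?_
  · rintro x ⟨hx1, hx⟩
    exact ⟨hx1, Z.W_cast (by ring) (ker_le hM hx)⟩
  · intro x hx
    obtain ⟨h1, h2⟩ := (mem_prt (he.part i).idem).1 hx
    exact ⟨_, (mem_prt (he.part i).idem).2 ⟨by rw [(he.part i).mon, h1],
      Z.W_cast (by ring) (hM.map 0 x (Z.W_cast (by ring) h2))⟩, rfl⟩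
  · intro y hy
    obtain ⟨h1, h2⟩ := (mem_prt (he.part i).idem).1 hy
    obtain ⟨x, hx, hxy⟩ := surj_map hM (y := y) (Z.W_cast (by ring) h2)
    refine ⟨e.onV i x, (mem_prt (he.part i).idem).2 ⟨(he.part i).idem x, ?_⟩, ?_⟩
    · obtain ⟨x', hx'⟩ := (Z.graded i).sp_left _ x hx
      exact Z.W_cast (by ring) ((Z.graded i).sp_mem _ _ _ (he.sp _ _ _ _ hx')).1
    · show y = Z.generic.mon i (e.onV i x)
      rw [← (he.part i).mon, hxy, h1]
  · intro x hx y _ hxy
    have h : y = Z.generic.mon i x := hxy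
    rw [h]
    exact ⟨fun h => h.2, fun h => ⟨hx.1, h⟩⟩
  · intro x y hxy
    have h : y = Z.generic.mon i x := hxy
    show (q : Ω) • Z.generic.frob i y = Z.generic.mon i (Z.generic.frob i x)
    rw [h, ht i x]

end one

section many

variable {Λ : Type} {K : Λ → Type u} [∀ l, Field (K l)] [∀ l, CharZero (K l)] {n q : ℕ}
  {Z : ∀ l, LogModel.{u, v} (K l) n q} {e : ∀ l, Operators (Z l)} (hZ : IsSystem Z e)
  (hO : IsKnownOutside Z e)
include hZ hO

/-- The coboundaries in the total degrees at most `n`. -/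
theorem bd_left (w : ℤ) (i : ℕ) (hi : i ≤ n) : IsIndependent fun l =>
    charpolyOn (Z l).F (prt (e l).onE ((Z l).coboundaries (i - w) w)) := by
  induction i with
  | zero =>
    refine IsIndependent.one.congr fun l => bd_one (e l) (hZ.bounded l _ _ ?_)
    right; left
    push_cast
    omega
  | succ i ih =>
    have h1 := ih (by omega)
    have hW := hO i w (by omega)
    have hW' := hO i (w - 1) (by omega)
    have h2 : IsIndependent fun l =>
        charpolyOn (Z l).F (prt (e l).onE ((Z l).cocycles (i - w) w)) := by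
      refine IsIndependent.of_mul hW' (fun l => monic_W (hZ.projector l) i (w - 1)) ?_
      refine (hW.mul h1).congr fun l => ?_
      rw [weight_split (hZ.projector l) i w, mul_comm]
    refine IsIndependent.of_mul h2 (fun l => monic_zc (hZ.projector l) _ _) ?_
    refine (hZ.terms (i - w) w).congr fun l => ?_
    rw [term_split (hZ.projector l), mul_comm]
    congr 4
    push_cast
    ring

/-- The cocycles in the total degrees at least `n`. -/
theorem zc_right (w : ℤ) (j : ℕ) (hj : j ≤ n) : IsIndependent fun l =>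
    charpolyOn (Z l).F (prt (e l).onE ((Z l).cocycles (((2 * n - j : ℕ) : ℤ) - w) w)) := by
  have step : ∀ i : ℕ, n ≤ i →
      (IsIndependent fun l => charpolyOn (Z l).F
        (prt (e l).onE ((Z l).cocycles (((i + 1 : ℕ) : ℤ) - w) w))) →
      IsIndependent fun l => charpolyOn (Z l).F
        (prt (e l).onE ((Z l).cocycles ((i : ℤ) - w) w)) := by
    intro i hi h1
    have hW := hO (i + 1) w (by omega)
    have hW' := hO (i + 1) (w - 1) (by omega)
    have h2 : IsIndependent fun l => charpolyOn (Z l).F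
        (prt (e l).onE ((Z l).coboundaries (((i + 1 : ℕ) : ℤ) - w) w)) := by
      refine IsIndependent.of_mul hW (fun l => monic_W (hZ.projector l) (i + 1) w) ?_
      refine (hW'.mul h1).congr fun l => ?_
      rw [mul_comm, weight_split (hZ.projector l) (i + 1) w]
    refine IsIndependent.of_mul h2 (fun l => monic_bd (hZ.projector l) _ _) ?_
    refine (hZ.terms (i - w) w).congr fun l => ?_
    rw [term_split (hZ.projector l)]
    congr 4
    push_cast
    ring
  induction j with
  | zero =>
    apply step _ (by omega)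
    refine IsIndependent.one.congr fun l => zc_one (e l) (hZ.bounded l _ _ ?_)
    right; right
    push_cast
    omega
  | succ j ih =>
    apply step _ (by omega)
    have := ih (by omega)
    rwa [show 2 * n - (j + 1) + 1 = 2 * n - j by omega]

lemma weightPoly_neg (l : Λ) (i : ℕ) {w : ℤ} (hw : w < 0) : weightPoly (Z l) (e l) i w = 1 := by
  show charpolyOn _ (prt _ ((Z l).generic.W i _)) = 1
  rw [W_neg (Z l) (hZ.bounded l) i hw, prt_bot, charpolyOn_bot]

/-- The weight filtration in the middle degree. -/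
theorem middle (w : ℤ) : IsIndependent fun l => weightPoly (Z l) (e l) n w := by
  have key : ∀ k : ℕ, IsIndependent fun l => weightPoly (Z l) (e l) n ((k : ℤ) - 1) := by
    intro k
    induction k with
    | zero =>
      exact IsIndependent.one.congr fun l => weightPoly_neg hZ hO l n (by norm_num)
    | succ k ih =>
      have h1 := bd_left hZ hO (k : ℤ) n le_rfl
      have h2 := zc_right hZ hO (k : ℤ) n le_rfl
      rw [show 2 * n - n = n by omega] at h2
      have h3 : IsIndependent fun l => weightPoly (Z l) (e l) n k := by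
        refine IsIndependent.of_mul h1 (fun l => monic_bd (hZ.projector l) _ _) ?_
        refine (ih.mul h2).congr fun l => ?_
        exact weight_split (hZ.projector l) n k
      rwa [show (((k + 1 : ℕ) : ℤ)) - 1 = k by push_cast; ring]
  rcases lt_or_ge w 0 with hw | hw
  · exact IsIndependent.one.congr fun l => weightPoly_neg hZ hO l n hw
  · have := key (w + 1).toNat
    rwa [Int.toNat_of_nonneg (by omega), add_sub_cancel_right] at this

/-- All the characteristic polynomials on the steps of the weight filtration. -/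
theorem weights (i : ℕ) (w : ℤ) : IsIndependent fun l => weightPoly (Z l) (e l) i w := by
  by_cases hi : i = n
  · subst hi
    exact middle hZ hO w
  · exact hO i w hi

/-- Purity gives the integrality and the independence of `ℓ` of the local factors. -/
theorem eulerFactors [∀ l, IsAlgClosed (K l)] (hq : 1 < q) (i : ℕ) (hp : ∀ l, (Z l).PureIn i) :
    IsIndependent fun l => eulerFactor (Z l) (e l) i := by
  have h1 := weights hZ hO i i
  have h2 := (weights hZ hO i (i - 2)).scaleRoots
    (fun l => monic_W (hZ.projector l) i (i - 2)) q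
  have h3 : IsIndependent fun l => charpolyOn ((Z l).generic.frob i)
      (LinearMap.range ((e l).onV i) ⊓ LinearMap.ker ((Z l).generic.mon i)) := by
    refine IsIndependent.of_mul h2 (fun l => (Polynomial.monic_scaleRoots_iff _).2
      (monic_W (hZ.projector l) i (i - 2))) ?_
    refine h1.congr fun l => ?_
    exact (ker_split (Z l) hq (hZ.projector l) (hZ.twist l) (hp l)).symm
  exact h3.reverse

end many

end Pool.Agent.H849.LI
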